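import Pool.Agent.H33.SDM

set_option autoImplicit false

namespace Pool.Agent.Results.MP_3abf0f_al.Pos

open Pool.Agent.H33.SDM Function

def F (K t : ℤ) : ℤ × ℤ :=
  if t < 2 * K then (1 + 2 * t, 0) else
  if (t - 2 * K) % 7 = 0 then (4 * K + 1 + 2 * ((t - 2 * K) / 7), 0) else
  if (t - 2 * K) % 7 = 1 then (2 * ((t - 2 * K) / 7), 0) else
  if (t - 2 * K) % 7 = 2 then (2 * ((t - 2 * K) / 7), 1) else
  if (t - 2 * K) % 7 = 3 then (-2 - 2 * ((t - 2 * K) / 7), 0) else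
  if (t - 2 * K) % 7 = 4 then (-1 - 2 * ((t - 2 * K) / 7), 1) else
  if (t - 2 * K) % 7 = 5 then (1 + 2 * ((t - 2 * K) / 7), 1) else (-2 - 2 * ((t - 2 * K) / 7), 1)

def Q (K t : ℤ) : ℤ × ℤ :=
  if t < 2 * K then (4 + 4 * t, 0) else
  if (t - 2 * K) % 7 = 0 then (4 * K + 1 + 4 * ((t - 2 * K) / 7), 0) else
  if (t - 2 * K) % 7 = 1 then (4 * ((t - 2 * K) / 7), 1) else
  if (t - 2 * K) % 7 = 2 then (2 + 4 * ((t - 2 * K) / 7), 1) else
  if (t - 2 * K) % 7 = 3 then (-3 - 4 * ((t - 2 * K) / 7), 1) else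
  if (t - 2 * K) % 7 = 4 then (4 * K - 2 - 4 * ((t - 2 * K) / 7), 0) else
  if (t - 2 * K) % 7 = 5 then (3 + 4 * ((t - 2 * K) / 7), 0) else (-5 - 4 * ((t - 2 * K) / 7), 1)

lemma iF {K s t r : ℕ} (hr : (r : ℤ) = 4 * K + -1) (hs : s < 16 * K) (ht : t < 16 * K)
    (h : (e (F K s) : Gp (8 * K) r) = e (F K t)) : s = t := by
  obtain ⟨h1, h2⟩ := mod (by omega) (.inr rfl) hr
  obtain ⟨h3, h4⟩ := of_eq h1 h2 h
  have b : ∀ t : ℕ, t < 16 * K → -(8 * K) < (F K t).1 ∧ (F K t).1 < 8 * K := fun t ht => by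
    unfold F
    split_ifs <;> dsimp only <;> omega
  have b1 := b s hs
  have b2 := b t ht
  have h5 := small h3 (by omega) (by omega)
  clear h h3 h1 h2 hr b b1 b2
  unfold F at *
  split_ifs at h4 h5 <;> dsimp only at h4 h5 <;> omega

lemma iQ {K s t r : ℕ} (hr : (r : ℤ) = 4 * K + -1) (hs : s < 16 * K) (ht : t < 16 * K)
    (h : (e (Q K s) : Gp (8 * K) r) = e (Q K t)) : s = t := by
  obtain ⟨h1, h2⟩ := mod (by omega) (.inr rfl) hr
  obtain ⟨h3, h4⟩ := of_eq h1 h2 h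
  have b : ∀ t : ℕ, t < 16 * K → -(12 * K) < (Q K t).1 ∧ (Q K t).1 < 12 * K := fun t ht => by
    unfold Q
    split_ifs <;> dsimp only <;> omega
  have b1 := b s hs
  have b2 := b t ht
  have h5 := small h3 (by omega) (by omega)
  clear h h3 h1 h2 hr b b1 b2
  unfold Q at *
  split_ifs at h4 h5 <;> dsimp only at h4 h5 <;> omega

lemma hQ {K t r : ℕ} (hr : (r : ℤ) = 4 * K + -1) :
    (e (F K t) : Gp (8 * K) r) * e (F K (t + 1 : ℕ)) = e (Q K t) := by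
  unfold F Q
  split_ifs <;> first
    | omega
    | (rw [m0]; refine eqv ?_; dsimp only; omega)
    | (rw [m2 (.inr rfl) hr]; refine eqv ?_; dsimp only; split_ifs <;> omega)

lemma main (K r : ℕ) (hK : 0 < K) (hr : (r : ℤ) = 4 * K + -1) :
    ∃ g : ZMod (16 * K) → Gp (8 * K) r, Bijective g ∧ Injective fun i => g i * g (i + 1) := by
  have : NeZero (16 * K) := ⟨by omega⟩
  have : NeZero (8 * K) := ⟨by omega⟩
  obtain ⟨c1, c2⟩ := card (N := 8 * K) (r := r)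
  refine ⟨fun i => e (F K i.val), Injective.bijective_of_nat_card_le
    (fun i j h => ZMod.val_injective _ (iF hr i.val_lt j.val_lt h))
    (by rw [Nat.card_zmod]; omega), cyc (16 * K) (fun t => e (F K t)) (fun t => e (Q K t))
      (· * ·) (eqv ?_) (fun t _ => hQ hr) fun s hs t ht => iQ hr hs ht⟩
  unfold F
  split_ifs <;> dsimp only <;> omega

theorem result (n : ℕ) (hn : 4 ≤ n) :
    ∃ g : ZMod (2 ^ n) → Gp (2 ^ (n - 1)) (2 ^ (n - 2) - 1),
      Bijective g ∧ Injective fun i => g i * g (i + 1) := by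
  obtain ⟨m, rfl⟩ := Nat.exists_eq_add_of_le' hn
  have := Nat.two_pow_pos m
  rw [show 2 ^ (m + 4) = 16 * 2 ^ m by ring, show 2 ^ (m + 4 - 1) = 8 * 2 ^ m by
    rw [show m + 4 - 1 = m + 3 from rfl]; ring, show 2 ^ (m + 4 - 2) = 4 * 2 ^ m by
    rw [show m + 4 - 2 = m + 2 from rfl]; ring]
  exact main _ _ this (by omega)

end Pool.Agent.Results.MP_3abf0f_al.Pos
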